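import Pool.Agent.Helper41.LB.NDefs

/-! The conformal factor on the window. -/

set_option autoImplicit false

open MeasureTheory Set Real Module

namespace Pool.Agent.Helper19.LB

theorem pow_ge_half {k : ℕ} {x : ℝ} (hk : 2 ≤ k) (hx : 1 - 3 / 5 / (k : ℝ) ≤ x) :
    1 / 2 ≤ x ^ (k - 1) := by
  have hk' : (2 : ℝ) ≤ k := by exact_mod_cast hk
  have h0 : (0 : ℝ) < k - 3 / 5 := by linarith
  have h1 : 0 < 1 - 3 / 5 / (k : ℝ) := by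
    rw [sub_pos, div_lt_one (by linarith)]
    linarith
  have h2 : exp (-(3 / 5 / ((k : ℝ) - 3 / 5))) ≤ 1 - 3 / 5 / (k : ℝ) := by
    have h3 : 1 + 3 / 5 / ((k : ℝ) - 3 / 5) ≤ exp (3 / 5 / ((k : ℝ) - 3 / 5)) := by
      have := add_one_le_exp (3 / 5 / ((k : ℝ) - 3 / 5))
      linarith
    have h4 : 1 + 3 / 5 / ((k : ℝ) - 3 / 5) = (1 - 3 / 5 / (k : ℝ))⁻¹ := by
      refine eq_inv_of_mul_eq_one_left ?_
      have h5 : (k : ℝ) ≠ 0 := by linarith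
      have h6 : 1 + 3 / 5 / ((k : ℝ) - 3 / 5) = k / (k - 3 / 5) := by
        rw [eq_div_iff h0.ne', add_mul, div_mul_cancel₀ _ h0.ne']
        ring
      have h7 : 1 - 3 / 5 / (k : ℝ) = (k - 3 / 5) / k := by
        rw [sub_div, div_self h5]
      rw [h6, h7, div_mul_div_cancel₀ h0.ne', div_self h5]
    rw [exp_neg, inv_le_comm₀ (exp_pos _) h1, ← h4]
    exact h3
  have h5 : exp (-(3 / 5 / ((k : ℝ) - 3 / 5))) ^ (k - 1) ≤ x ^ (k - 1) :=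
    pow_le_pow_left₀ (exp_pos _).le (h2.trans hx) _
  refine le_trans ?_ h5
  rw [← exp_nat_mul, Nat.cast_sub (by omega), Nat.cast_one]
  have h6 : -(3 / 5 : ℝ) ≤ ((k : ℝ) - 1) * -(3 / 5 / ((k : ℝ) - 3 / 5)) := by
    have h7 : ((k : ℝ) - 1) * (3 / 5 / ((k : ℝ) - 3 / 5)) ≤ 3 / 5 := by
      rw [← mul_div_assoc, div_le_iff₀ h0]
      nlinarith
    linarith
  have h8 : (1 : ℝ) / 2 ≤ exp (-(3 / 5)) := by
    have h9 := log_two_gt_d9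
    have h10 : exp (-log 2) = 1 / 2 := by
      rw [exp_neg, exp_log (by norm_num)]
      norm_num
    rw [← h10]
    exact exp_le_exp.2 (by linarith)
  exact h8.trans (exp_le_exp.2 h6)

theorem fac_cos {ρ c : ℝ} (hc0 : 0 ≤ c) (hc1 : c ≤ 1) (h : ρ ^ 2 + c ^ 2 = 1) : 2 * (1 - c) ≤ ρ ^ 2 * (1 + ρ ^ 2) := by
  have h3 : c ^ 2 ≤ c := by nlinarith
  have h4 : (1 - c) * (2 - ρ ^ 2) ≤ ρ ^ 2 := by nlinarith
  have h5 : 2 ≤ (2 - ρ ^ 2) * (1 + ρ ^ 2) := by nlinarith [sq_nonneg ρ]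
  nlinarith [mul_le_mul_of_nonneg_left h5 (by linarith : (0 : ℝ) ≤ 1 - c),
    mul_le_mul_of_nonneg_right h4 (by positivity : (0 : ℝ) ≤ 1 + ρ ^ 2)]

theorem fac_win {ε u ρ y : ℝ} (hε : 0 < ε) (hu1 : 1 ≤ u) (hd : (u - 1) ^ 2 ≤ y)
    (h1 : ε < ρ) (h2 : ρ < ε * u ^ 2) :
    ((ε * u) ^ 2 + ρ ^ 2) * (1 - y / 2) ≤ 2 * (ε * u) * ρ := by
  have hy : 0 ≤ y := (sq_nonneg _).trans hd
  have hετ : ε ≤ ε * u := by nlinarith
  have h22 : ρ ≤ ε * u * u := by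
    have : ε * u ^ 2 = ε * u * u := by ring
    linarith
  set τ := ε * u with hτ
  have hτ0 : 0 < τ := by linarith
  have h3 : 2 * (ρ - τ) ^ 2 ≤ y * (τ ^ 2 + ρ ^ 2) := by
    rcases le_total τ ρ with h | h
    · have h4 : ρ - τ ≤ τ * (u - 1) := by linarith [mul_sub τ u 1]
      have h5 : (ρ - τ) ^ 2 ≤ (τ * (u - 1)) ^ 2 := pow_le_pow_left₀ (by linarith) h4 2
      have h6 : (τ * (u - 1)) ^ 2 ≤ τ ^ 2 * y := by
        rw [mul_pow]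
        exact mul_le_mul_of_nonneg_left hd (sq_nonneg τ)
      have h7 : τ ^ 2 * y ≤ ρ ^ 2 * y :=
        mul_le_mul_of_nonneg_right (pow_le_pow_left₀ hτ0.le h 2) hy
      linarith [mul_comm y (τ ^ 2 + ρ ^ 2), add_mul (τ ^ 2) (ρ ^ 2) y]
    · have h4 : τ - ρ ≤ ε * (u - 1) := by linarith [mul_sub ε u 1]
      have h5 : (τ - ρ) ^ 2 ≤ (ε * (u - 1)) ^ 2 := pow_le_pow_left₀ (by linarith) h4 2
      have h6 : (ε * (u - 1)) ^ 2 ≤ ε ^ 2 * y := by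
        rw [mul_pow]
        exact mul_le_mul_of_nonneg_left hd (sq_nonneg ε)
      have h7 : ε ^ 2 * y ≤ ρ ^ 2 * y :=
        mul_le_mul_of_nonneg_right (pow_le_pow_left₀ hε.le h1.le 2) hy
      have h8 : ε ^ 2 * y ≤ τ ^ 2 * y :=
        mul_le_mul_of_nonneg_right (pow_le_pow_left₀ hε.le hετ 2) hy
      have h9 : (ρ - τ) ^ 2 = (τ - ρ) ^ 2 := by ring
      linarith [mul_comm y (τ ^ 2 + ρ ^ 2), add_mul (τ ^ 2) (ρ ^ 2) y]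
  have h10 : (ρ - τ) ^ 2 = τ ^ 2 + ρ ^ 2 - 2 * τ * ρ := by ring
  have h11 : (τ ^ 2 + ρ ^ 2) * (1 - y / 2) = τ ^ 2 + ρ ^ 2 - y * (τ ^ 2 + ρ ^ 2) / 2 := by ring
  rw [h10] at h3
  rw [h11]
  linarith

theorem fac_main {τ ρ c y : ℝ} (hy0 : 0 < y) (hy1 : y ≤ 1 / 160000) (hτ0 : 0 < τ)
    (hτ1 : τ ≤ y / 31) (hρ0 : 0 < ρ) (hρ1 : ρ ≤ y / 31) (hc0 : 0 < c) (hc1 : c ≤ 1)
    (hcρ : ρ ^ 2 + c ^ 2 = 1) (hwin : (τ ^ 2 + ρ ^ 2) * (1 - y / 2) ≤ 2 * τ * ρ) :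
    (1 - 3 / 5 * y) ≤ ((1 + τ) ^ 2 - 1) / (1 + (1 + τ) ^ 2 - 2 * (1 + τ) * c) * ρ := by
  have hρ2 : ρ ^ 2 ≤ y / 1000 := by
    have : ρ ^ 2 ≤ (y / 31) ^ 2 := pow_le_pow_left₀ hρ0.le hρ1 2
    nlinarith
  have hcos := fac_cos hc0.le hc1 hcρ
  have hD : 1 + (1 + τ) ^ 2 - 2 * (1 + τ) * c = τ ^ 2 + (1 + τ) * (2 * (1 - c)) := by ring
  have hD0 : 0 < τ ^ 2 + (1 + τ) * (2 * (1 - c)) := by
    have : 0 ≤ (1 + τ) * (2 * (1 - c)) := mul_nonneg (by linarith) (by linarith)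
    positivity
  have hD1 : τ ^ 2 + (1 + τ) * (2 * (1 - c)) ≤ (1 + τ) * (1 + ρ ^ 2) * (τ ^ 2 + ρ ^ 2) := by
    have h3 : (1 + τ) * (2 * (1 - c)) ≤ (1 + τ) * (ρ ^ 2 * (1 + ρ ^ 2)) :=
      mul_le_mul_of_nonneg_left hcos (by linarith)
    have h5 : 1 ≤ (1 + τ) * (1 + ρ ^ 2) := by nlinarith [sq_nonneg ρ]
    have h4 : τ ^ 2 * 1 ≤ τ ^ 2 * ((1 + τ) * (1 + ρ ^ 2)) :=
      mul_le_mul_of_nonneg_left h5 (sq_nonneg τ)
    have h6 : (1 + τ) * (1 + ρ ^ 2) * (τ ^ 2 + ρ ^ 2) =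
        τ ^ 2 * ((1 + τ) * (1 + ρ ^ 2)) + (1 + τ) * (ρ ^ 2 * (1 + ρ ^ 2)) := by ring
    rw [h6]
    linarith
  have hE : (1 + τ) * (1 + ρ ^ 2) ≤ 1 + y / 20 := by
    have h7 : τ * ρ ^ 2 ≤ 1 * (y / 1000) :=
      mul_le_mul (by linarith) hρ2 (sq_nonneg ρ) (by norm_num)
    have h8 : (1 + τ) * (1 + ρ ^ 2) = 1 + τ + ρ ^ 2 + τ * ρ ^ 2 := by ring
    rw [h8]
    linarith
  have hmain : (1 - 3 / 5 * y) * (τ ^ 2 + (1 + τ) * (2 * (1 - c))) ≤ 2 * τ * ρ := by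
    have h3 : 0 ≤ 1 - 3 / 5 * y := by linarith
    have h4 : (1 - 3 / 5 * y) * (1 + y / 20) ≤ 1 - y / 2 := by nlinarith
    have hS : 0 ≤ τ ^ 2 + ρ ^ 2 := by positivity
    calc (1 - 3 / 5 * y) * (τ ^ 2 + (1 + τ) * (2 * (1 - c)))
        ≤ (1 - 3 / 5 * y) * ((1 + τ) * (1 + ρ ^ 2) * (τ ^ 2 + ρ ^ 2)) :=
          mul_le_mul_of_nonneg_left hD1 h3
      _ ≤ (1 - 3 / 5 * y) * ((1 + y / 20) * (τ ^ 2 + ρ ^ 2)) :=
          mul_le_mul_of_nonneg_left (mul_le_mul_of_nonneg_right hE hS) h3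
      _ = (1 - 3 / 5 * y) * (1 + y / 20) * (τ ^ 2 + ρ ^ 2) := by ring
      _ ≤ (1 - y / 2) * (τ ^ 2 + ρ ^ 2) := mul_le_mul_of_nonneg_right h4 hS
      _ = (τ ^ 2 + ρ ^ 2) * (1 - y / 2) := mul_comm _ _
      _ ≤ 2 * τ * ρ := hwin
  have h12 : ((1 + τ) ^ 2 - 1) / (τ ^ 2 + (1 + τ) * (2 * (1 - c))) * ρ =
      ((1 + τ) ^ 2 - 1) * ρ / (τ ^ 2 + (1 + τ) * (2 * (1 - c))) := div_mul_eq_mul_div _ _ _
  rw [hD, h12, le_div_iff₀ hD0]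
  refine hmain.trans ?_
  have h9 : 0 ≤ τ * τ * ρ := by positivity
  have h10 : ((1 + τ) ^ 2 - 1) * ρ = 2 * τ * ρ + τ * τ * ρ := by ring
  rw [h10]
  linarith

/-- the conformal factor on the window -/
theorem factor_ge {k : ℕ} {m ε s : ℝ} (hkm : (k : ℝ) = m ^ 4) (hm : 20 ≤ m) (hε : 0 < ε)
    (hε1 : ε ≤ 1 / (32 * k)) (hs : s ∈ Ioo 0 (π / 2)) (h1 : ε < sin s) (h2 : sin s < ε * rb m) :
    1 / 2 ≤ (((1 + ε * √(rb m)) ^ 2 - 1) /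
      (1 + (1 + ε * √(rb m)) ^ 2 - 2 * (1 + ε * √(rb m)) * cos s) * sin s) ^ (k - 1) := by
  have hm2 : 400 ≤ m ^ 2 := by nlinarith
  have hm4 : (160000 : ℝ) ≤ m ^ 4 := by nlinarith
  have hk2 : 2 ≤ k := by
    have h : ((2 : ℕ) : ℝ) ≤ k := by rw [hkm]; push_cast; linarith
    exact_mod_cast h
  refine pow_ge_half hk2 ?_
  rw [hkm] at hε1 ⊢
  have hy0 : 0 < 1 / m ^ 4 := by positivity
  have hy1 : 1 / m ^ 4 ≤ 1 / 160000 := one_div_le_one_div_of_le (by norm_num) hm4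
  have hi0 : 0 < 1 / m ^ 2 := by positivity
  have hi1 : 1 / m ^ 2 ≤ 1 / 400 := one_div_le_one_div_of_le (by norm_num) hm2
  have hiy : (1 / m ^ 2) ^ 2 = 1 / m ^ 4 := by
    rw [one_div_pow, ← pow_mul]
  have hrb : rb m = 1 + 2 * (1 / m ^ 2) := by
    have : rb m = 1 + 2 / m ^ 2 := rfl
    rw [this, mul_one_div]
  have hu2 : √(rb m) ^ 2 = 1 + 2 * (1 / m ^ 2) := by
    rw [sq_sqrt (by rw [hrb]; positivity), hrb]
  have hu0 : 0 ≤ √(rb m) := sqrt_nonneg _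
  have hε2 : ε ≤ 1 / m ^ 4 / 32 := by
    refine hε1.trans (le_of_eq ?_)
    rw [div_div, mul_comm]
  have h35 : 3 / 5 / m ^ 4 = 3 / 5 * (1 / m ^ 4) := by rw [mul_one_div]
  rw [h35]
  rw [hrb, ← hu2] at h2
  generalize √(rb m) = u at *
  generalize 1 / m ^ 2 = i at *
  generalize 1 / m ^ 4 = y at *
  have hu1 : 1 ≤ u := by nlinarith
  have hui : u ≤ 1 + i := by nlinarith
  have hρ0 : 0 < sin s := hε.trans h1
  have hτ0 : 0 < ε * u := mul_pos hε (by linarith)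
  have hτ1 : ε * u ≤ y / 31 := by
    have h3 : ε * u ≤ ε * (1 + 1 / 400) := mul_le_mul_of_nonneg_left (by linarith) hε.le
    have h4 : ε * (1 + 1 / 400) ≤ y / 32 * (1 + 1 / 400) :=
      mul_le_mul_of_nonneg_right hε2 (by norm_num)
    linarith
  have hρ1 : sin s ≤ y / 31 := by
    have h3 : ε * u ^ 2 ≤ ε * (1 + 2 / 400) := by
      refine mul_le_mul_of_nonneg_left ?_ hε.le
      rw [hu2]
      linarith
    have h4 : ε * (1 + 2 / 400) ≤ y / 32 * (1 + 2 / 400) :=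
      mul_le_mul_of_nonneg_right hε2 (by norm_num)
    linarith
  have hd : (u - 1) ^ 2 ≤ y := by
    rw [← hiy]
    exact pow_le_pow_left₀ (by linarith) (by linarith) 2
  exact fac_main hy0 hy1 hτ0 hτ1 hρ0 hρ1
    (cos_pos_of_mem_Ioo ⟨by linarith [hs.1, pi_pos], hs.2⟩) (cos_le_one s)
    (sin_sq_add_cos_sq s) (fac_win hε hu1 hd h1 h2)

end Pool.Agent.Helper19.LB
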