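import Pool.Agent.Helper13.LB.TorusDef

/-! Orthonormal frames. -/

set_option autoImplicit false

open MeasureTheory Set Real Module
open scoped ContDiff RealInnerProductSpace

namespace Pool.Agent.Helper19.LB

open FBM

section Torus

variable {n k : ℕ} (w : Fin k ⊕ Fin k ⊕ Unit → E n)

theorem inner_w {w : Fin k ⊕ Fin k ⊕ Unit → E n} (hw : Orthonormal ℝ w)
    (a b : Fin k ⊕ Fin k ⊕ Unit) : ⟪w a, w b⟫ = if a = b then 1 else 0 :=
  orthonormal_iff_ite.1 hw a b

theorem inner_rh_rh {w : Fin k ⊕ Fin k ⊕ Unit → E n} (hw : Orthonormal ℝ w) (θ : Fin k → ℝ)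
    (i j : Fin k) : ⟪rh w θ i, rh w θ j⟫ = if i = j then 1 else 0 := by
  simp only [rh, inner_add_left, inner_add_right, inner_smul_left, inner_smul_right, inner_w hw,
    Sum.inl.injEq, Sum.inr.injEq, reduceCtorEq, if_false, mul_zero, add_zero, zero_add,
    RCLike.conj_to_real]
  split_ifs with h
  · subst h
    have := cos_sq_add_sin_sq (θ i)
    nlinarith
  · simp

theorem inner_th_th {w : Fin k ⊕ Fin k ⊕ Unit → E n} (hw : Orthonormal ℝ w) (θ : Fin k → ℝ)
    (i j : Fin k) : ⟪th w θ i, th w θ j⟫ = if i = j then 1 else 0 := by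
  simp only [th, inner_add_left, inner_add_right, inner_smul_left, inner_smul_right, inner_w hw,
    Sum.inl.injEq, Sum.inr.injEq, reduceCtorEq, if_false, mul_zero, add_zero, zero_add,
    RCLike.conj_to_real]
  split_ifs with h
  · subst h
    have := cos_sq_add_sin_sq (θ i)
    nlinarith
  · simp

theorem inner_rh_th {w : Fin k ⊕ Fin k ⊕ Unit → E n} (hw : Orthonormal ℝ w) (θ : Fin k → ℝ)
    (i j : Fin k) : ⟪rh w θ i, th w θ j⟫ = 0 := by
  simp only [rh, th, inner_add_left, inner_add_right, inner_smul_left, inner_smul_right,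
    inner_w hw, Sum.inl.injEq, Sum.inr.injEq, reduceCtorEq, if_false, mul_zero, add_zero, zero_add,
    RCLike.conj_to_real]
  split_ifs with h
  · subst h
    ring
  · simp

theorem inner_ax_ax {w : Fin k ⊕ Fin k ⊕ Unit → E n} (hw : Orthonormal ℝ w) :
    ⟪ax w, ax w⟫ = (1 : ℝ) := by
  rw [ax, inner_w hw, if_pos rfl]

theorem inner_rh_ax {w : Fin k ⊕ Fin k ⊕ Unit → E n} (hw : Orthonormal ℝ w) (θ : Fin k → ℝ)
    (i : Fin k) : ⟪rh w θ i, ax w⟫ = (0 : ℝ) := by
  simp [rh, ax, inner_add_left, inner_smul_left, inner_w hw]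

theorem inner_th_ax {w : Fin k ⊕ Fin k ⊕ Unit → E n} (hw : Orthonormal ℝ w) (θ : Fin k → ℝ)
    (i : Fin k) : ⟪th w θ i, ax w⟫ = (0 : ℝ) := by
  simp [th, ax, inner_add_left, inner_smul_left, inner_w hw]

theorem inner_Rh_th {w : Fin k ⊕ Fin k ⊕ Unit → E n} (hw : Orthonormal ℝ w) (θ : Fin k → ℝ)
    (i : Fin k) : ⟪Rh w θ, th w θ i⟫ = (0 : ℝ) := by
  simp [Rh, inner_smul_left, sum_inner, inner_rh_th hw]

theorem inner_Rh_ax {w : Fin k ⊕ Fin k ⊕ Unit → E n} (hw : Orthonormal ℝ w) (θ : Fin k → ℝ) :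
    ⟪Rh w θ, ax w⟫ = (0 : ℝ) := by
  simp [Rh, inner_smul_left, sum_inner, inner_rh_ax hw]

theorem inner_Rh_Rh {w : Fin k ⊕ Fin k ⊕ Unit → E n} (hk : 0 < k) (hw : Orthonormal ℝ w)
    (θ : Fin k → ℝ) : ⟪Rh w θ, Rh w θ⟫ = (1 : ℝ) := by
  have hk' : (0 : ℝ) < k := by exact_mod_cast hk
  have h1 : (√(k : ℝ))⁻¹ * ((√(k : ℝ))⁻¹ * (k : ℝ)) = 1 := by
    rw [← mul_assoc, ← mul_inv, mul_self_sqrt hk'.le, inv_mul_cancel₀ hk'.ne']
  simp only [Rh, inner_smul_left, inner_smul_right, sum_inner, inner_sum, inner_rh_rh hw,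
    RCLike.conj_to_real]
  simp
  rw [mul_comm (k : ℝ)]
  exact h1

theorem orthonormal_th (hw : Orthonormal ℝ w) (θ : Fin k → ℝ) : Orthonormal ℝ (th w θ) :=
  orthonormal_iff_ite.2 (inner_th_th hw θ)

/-- The radial vector, the axis and the angular vectors are orthonormal. -/
theorem orthonormal_all (hk : 0 < k) (hw : Orthonormal ℝ w) (θ : Fin k → ℝ) :
    Orthonormal ℝ (fun a : Bool ⊕ Fin k => Sum.elim (fun b => if b then Rh w θ else ax w)
      (th w θ) a) := by
  rw [orthonormal_iff_ite]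
  rintro ((_ | _) | i) ((_ | _) | j)
  · have := inner_ax_ax hw
    simpa using this
  · have := inner_Rh_ax hw θ
    rw [real_inner_comm] at this
    simpa using this
  · have := inner_th_ax hw θ j
    rw [real_inner_comm] at this
    simpa using this
  · simp [inner_Rh_ax hw]
  · have := inner_Rh_Rh hk hw θ
    simpa using this
  · simp [inner_Rh_th hw]
  · simp [inner_th_ax hw]
  · have := inner_Rh_th hw θ i
    rw [real_inner_comm] at this
    simpa using this
  · simp [inner_th_th hw]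

end Torus

theorem finrank_frame {n k : ℕ} {v : Fin k → E n} (hv : Orthonormal ℝ v) :
    finrank ℝ (Submodule.span ℝ (range v)) = k := by
  rw [finrank_span_eq_card hv.linearIndependent, Fintype.card_fin]

theorem starProjection_frame {n k : ℕ} {v : Fin k → E n} (hv : Orthonormal ℝ v) :
    (Submodule.span ℝ (range v)).starProjection = ∑ i, (innerSL ℝ (v i)).smulRight (v i) := by
  ext1 x
  have h0 : (∑ i, (innerSL ℝ (v i)).smulRight (v i)) x = ∑ i, ⟪v i, x⟫ • v i := by
    simp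
  rw [h0]
  refine Submodule.eq_starProjection_of_mem_of_inner_eq_zero ?_ ?_
  · exact Submodule.sum_mem _ fun i _ =>
      Submodule.smul_mem _ _ (Submodule.subset_span (mem_range_self i))
  · intro y hy
    induction hy using Submodule.span_induction with
    | mem y hy =>
      obtain ⟨j, rfl⟩ := hy
      rw [inner_sub_left, sum_inner]
      simp only [inner_smul_left, orthonormal_iff_ite.1 hv, RCLike.conj_to_real]
      simp [real_inner_comm]
    | zero => simp
    | add y z _ _ h1 h2 => rw [inner_add_right, h1, h2, add_zero]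
    | smul a y _ h1 => rw [inner_smul_right, h1, mul_zero]

theorem div_frame {n k : ℕ} {v : Fin k → E n} (hv : Orthonormal ℝ v) (X : E n → E n) (x : E n) :
    divAlong (Submodule.span ℝ (range v)) X x = ∑ i, ⟪v i, fderiv ℝ X x (v i)⟫ := by
  unfold divAlong
  have h1 : ((Submodule.span ℝ (range v)).starProjection : E n →ₗ[ℝ] E n) ∘ₗ
      (fderiv ℝ X x : E n →ₗ[ℝ] E n) =
      ∑ i, (((innerSL ℝ (v i)).comp (fderiv ℝ X x) : E n →L[ℝ] ℝ) : E n →ₗ[ℝ] ℝ).smulRight
        (v i) := by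
    rw [starProjection_frame hv]
    ext1 z
    simp [LinearMap.sum_apply]
  rw [h1, map_sum]
  refine Finset.sum_congr rfl fun i _ => ?_
  rw [LinearMap.trace_smulRight]
  simp

end Pool.Agent.Helper19.LB
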