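import Pool.Agent.Helper19.LB.Fam

/-! The orthogonal family of frames. -/

set_option autoImplicit false

open MeasureTheory Set Real Module Matrix
open scoped ContDiff RealInnerProductSpace

namespace Pool.Agent.Helper19.LB

open FBM

/-- The orthogonal group. -/
abbrev OG (k : ℕ) : Type := ↥(unitary (Matrix (Fin (k + 1)) (Fin (k + 1)) ℝ))

theorem og_mul_star {k : ℕ} (g : OG k) : (g.1 * star g.1) = 1 := Unitary.mul_star_self_of_mem g.2

theorem og_entry {k : ℕ} (g : OG k) (p q : Fin (k + 1)) :
    ∑ i, g.1 p i * g.1 q i = if p = q then 1 else 0 := by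
  have h := congrFun (congrFun (og_mul_star g) p) q
  rw [Matrix.mul_apply, Matrix.one_apply] at h
  rw [← h]
  refine Finset.sum_congr rfl fun i _ => ?_
  rw [Matrix.star_apply]
  simp

noncomputable instance ogCompact (k : ℕ) : CompactSpace (OG k) := by
  have h1 : IsClosed ((unitary (Matrix (Fin (k + 1)) (Fin (k + 1)) ℝ) :
      Submonoid (Matrix (Fin (k + 1)) (Fin (k + 1)) ℝ)) :
      Set (Matrix (Fin (k + 1)) (Fin (k + 1)) ℝ)) := isClosed_unitary
  have h2 : IsCompact (Set.univ.pi fun _ : Fin (k + 1) => Set.univ.pi fun _ : Fin (k + 1) =>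
      Set.Icc (-1 : ℝ) 1) := isCompact_univ_pi fun _ => isCompact_univ_pi fun _ => isCompact_Icc
  have h3 : ((unitary (Matrix (Fin (k + 1)) (Fin (k + 1)) ℝ) :
      Submonoid (Matrix (Fin (k + 1)) (Fin (k + 1)) ℝ)) :
      Set (Matrix (Fin (k + 1)) (Fin (k + 1)) ℝ)) ⊆
      (Set.univ.pi fun _ : Fin (k + 1) => Set.univ.pi fun _ : Fin (k + 1) =>
      Set.Icc (-1 : ℝ) 1) := by
    intro g hg p _ q _
    have h4 := og_entry ⟨g, hg⟩ p p
    rw [if_pos rfl] at h4
    have h5 : g p q * g p q ≤ 1 := by
      rw [← h4]
      exact Finset.single_le_sum (f := fun i => g p i * g p i)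
        (fun i _ => mul_self_nonneg (g p i)) (Finset.mem_univ q)
    exact abs_le.1 (abs_le_one_iff_mul_self_le_one.2 h5)
  exact isCompact_iff_compactSpace.1 (h2.of_isClosed_subset h1 h3)

instance ogSecond (k : ℕ) : SecondCountableTopology (OG k) := by
  have : SecondCountableTopology (Matrix (Fin (k + 1)) (Fin (k + 1)) ℝ) :=
    inferInstanceAs (SecondCountableTopology (Fin (k + 1) → Fin (k + 1) → ℝ))
  exact TopologicalSpace.Subtype.secondCountableTopology _

/-- The rotation in the plane `(0, j + 1)`. -/
noncomputable def rot {k : ℕ} (j : Fin k) (t : ℝ) : Matrix (Fin (k + 1)) (Fin (k + 1)) ℝ :=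
  Matrix.of fun p q => if p = 0 then (if q = 0 then cos t else if q = j.succ then sin t else 0)
    else if p = j.succ then (if q = 0 then -sin t else if q = j.succ then cos t else 0)
    else if p = q then 1 else 0

theorem rot_mul {k : ℕ} (j : Fin k) (t : ℝ) (g : Matrix (Fin (k + 1)) (Fin (k + 1)) ℝ)
    (p q : Fin (k + 1)) : (rot j t * g) p q =
      if p = 0 then cos t * g 0 q + sin t * g j.succ q
      else if p = j.succ then -sin t * g 0 q + cos t * g j.succ q else g p q := by
  rw [Matrix.mul_apply]
  have hj : j.succ ≠ 0 := Fin.succ_ne_zero j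
  by_cases hp : p = 0
  · subst hp
    rw [if_pos rfl, Finset.sum_eq_add (0 : Fin (k + 1)) j.succ hj.symm]
    · simp [rot, hj]
    · intro c _ hc
      simp [rot, hc.1, hc.2]
    · simp
    · simp
  · rw [if_neg hp]
    by_cases hp' : p = j.succ
    · subst hp'
      rw [if_pos rfl, Finset.sum_eq_add (0 : Fin (k + 1)) j.succ hj.symm]
      · simp [rot, hj]
      · intro c _ hc
        simp [rot, hj, hc.1, hc.2]
      · simp
      · simp
    · rw [if_neg hp', Finset.sum_eq_single p]
      · simp [rot, hp, hp']
      · intro c _ hc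
        simp [rot, hp, hp', hc.symm]
      · simp

theorem rot_mem {k : ℕ} (j : Fin k) (t : ℝ) :
    rot j t ∈ unitary (Matrix (Fin (k + 1)) (Fin (k + 1)) ℝ) := by
  have hj : j.succ ≠ 0 := Fin.succ_ne_zero j
  have h1 : rot j t * star (rot j t) = 1 := by
    ext p q
    rw [rot_mul, Matrix.one_apply]
    simp only [Matrix.star_apply, star_trivial]
    have h := cos_sq_add_sin_sq t
    by_cases hp : p = 0
    · subst hp
      by_cases hq : q = 0
      · subst hq
        simp [rot, hj]
        nlinarith
      · by_cases hq' : q = j.succ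
        · subst hq'
          simp [rot, hj, hj.symm]
          ring
        · simp [rot, hq, hq', Ne.symm hq]
    · by_cases hp' : p = j.succ
      · subst hp'
        by_cases hq : q = 0
        · subst hq
          simp [rot, hj]
          ring
        · by_cases hq' : q = j.succ
          · subst hq'
            simp [rot, hj]
            nlinarith
          · simp [rot, hj, hq, hq', Ne.symm hq']
      · by_cases hq : q = 0
        · subst hq
          simp [rot, hp, hp']
        · by_cases hq' : q = j.succ
          · subst hq'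
            simp [rot, hj, hp, hp']
          · simp [rot, hp, hp', hq, hq', eq_comm]
  exact Unitary.mem_iff.2 ⟨mul_eq_one_comm.1 h1, h1⟩

section Fam

variable {n k : ℕ} (b : Fin (k + 2) → E n)

/-- The rows of the matrix as vectors. -/
noncomputable def row (g : OG k) (p : Fin (k + 1)) : E n := ∑ i, g.1 p i • b i.castSucc

theorem inner_row {b : Fin (k + 2) → E n} (hb : Orthonormal ℝ b) (g : OG k) (p q : Fin (k + 1)) :
    ⟪row b g p, row b g q⟫ = if p = q then (1 : ℝ) else 0 := by
  rw [← og_entry g p q]
  have hb' : ∀ i j : Fin (k + 1), ⟪b i.castSucc, b j.castSucc⟫ = if i = j then (1 : ℝ) else 0 := by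
    intro i j
    rw [orthonormal_iff_ite.1 hb]
    simp
  simp only [row, sum_inner, inner_sum, inner_smul_left, inner_smul_right, hb',
    RCLike.conj_to_real]
  simp [mul_comm]

theorem inner_row_last {b : Fin (k + 2) → E n} (hb : Orthonormal ℝ b) (g : OG k)
    (p : Fin (k + 1)) : ⟪row b g p, b (Fin.last (k + 1))⟫ = (0 : ℝ) := by
  have hb' : ∀ i : Fin (k + 1), ⟪b i.castSucc, b (Fin.last (k + 1))⟫ = (0 : ℝ) := by
    intro i
    rw [orthonormal_iff_ite.1 hb, if_neg (Fin.castSucc_lt_last i).ne]
  simp only [row, sum_inner, inner_smul_left, hb', mul_zero, Finset.sum_const_zero]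

theorem row_rot (j : Fin k) (t : ℝ) (g : OG k) (p : Fin (k + 1)) :
    row b (⟨rot j t, rot_mem j t⟩ * g) p =
      if p = 0 then cos t • row b g 0 + sin t • row b g j.succ
      else if p = j.succ then -sin t • row b g 0 + cos t • row b g j.succ else row b g p := by
  have h : ∀ i, ((⟨rot j t, rot_mem j t⟩ * g : OG k)).1 p i = (rot j t * g.1) p i := fun i => rfl
  simp only [row, h, rot_mul]
  split_ifs
  · simp only [add_smul, Finset.sum_add_distrib, mul_smul, Finset.smul_sum]
  · simp only [add_smul, Finset.sum_add_distrib, mul_smul, Finset.smul_sum, neg_smul]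
  · rfl

theorem cont_row (p : Fin (k + 1)) : Continuous fun g : OG k => row b g p := by
  unfold row
  refine continuous_finsetSum _ fun i _ => ?_
  have h : Continuous fun g : OG k => g.1 p i :=
    (continuous_apply_apply p i).comp continuous_subtype_val
  exact h.smul continuous_const

/-- Differentiation under the integral sign. -/
theorem int_deriv_zero' {Om : Type} [TopologicalSpace Om] [CompactSpace Om] [MeasurableSpace Om]
    [BorelSpace Om] [SecondCountableTopology Om] (nu : Measure Om) [IsFiniteMeasure nu]
    (f f' : Om → ℝ → ℝ) (hf : Continuous fun p : Om × ℝ => f p.1 p.2)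
    (hf' : Continuous fun p : Om × ℝ => f' p.1 p.2) (hd : ∀ g t, HasDerivAt (f g) (f' g t) t)
    (hc : ∀ t, ∫ g, f g t ∂nu = ∫ g, f g 0 ∂nu) : ∫ g, f' g 0 ∂nu = 0 := by
  have hft : ∀ t, Continuous fun g => f g t := fun t =>
    hf.comp (continuous_id.prodMk continuous_const)
  have hft' : ∀ t, Continuous fun g => f' g t := fun t =>
    hf'.comp (continuous_id.prodMk continuous_const)
  obtain ⟨C, hC⟩ := (isCompact_univ.prod (isCompact_Icc (a := (-1 : ℝ)) (b := 1))).exists_bound_of_continuousOn
    (f := fun p : Om × ℝ => f' p.1 p.2) hf'.continuousOn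
  have h := hasDerivAt_integral_of_dominated_loc_of_deriv_le (μ := nu) (x₀ := (0 : ℝ))
    (F := fun t g => f g t) (F' := fun t g => f' g t) (bound := fun _ => C)
    (s := Icc (-1) 1) (Icc_mem_nhds (by norm_num) (by norm_num))
    (Filter.Eventually.of_forall fun t => (hft t).aestronglyMeasurable)
    ((hft 0).integrable_of_hasCompactSupport (HasCompactSupport.of_compactSpace _))
    (hft' 0).aestronglyMeasurable
    (Filter.Eventually.of_forall fun g t ht => hC (g, t) ⟨mem_univ _, ht⟩)
    (integrable_const C) (Filter.Eventually.of_forall fun g t _ => hd g t)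
  have h2 : (fun t => ∫ g, f g t ∂nu) = fun _ => ∫ g, f g 0 ∂nu := funext hc
  have h3 := h.2
  rw [h2] at h3
  exact h3.unique (hasDerivAt_const _ _)

end Fam

/-- The family of frames. -/
theorem exists_family {n k : ℕ} (_hk : 1 ≤ k) (hn : k + 2 ≤ n) :
    ∃ (Om : Type) (_ : TopologicalSpace Om) (_ : CompactSpace Om)
      (_ : SecondCountableTopology Om) (_ : MeasurableSpace Om) (_ : BorelSpace Om)
      (nu : Measure Om) (R : Om → E n) (T : Om → Fin k → E n) (a : E n),
      Family n k nu R T a := by
  let _ : MeasurableSpace (OG k) := borel (OG k)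
  have : BorelSpace (OG k) := ⟨rfl⟩
  let b : Fin (k + 2) → E n := fun i => EuclideanSpace.single (Fin.castLE hn i) 1
  have hb : Orthonormal ℝ b := by
    rw [orthonormal_iff_ite]
    intro i j
    simp [b, EuclideanSpace.inner_single_left, Fin.ext_iff]
  let nu : Measure (OG k) := Measure.haarMeasure ⊤
  have hnu : IsProbabilityMeasure nu := ⟨by
    have := Measure.haarMeasure_self (K₀ := (⊤ : TopologicalSpace.PositiveCompacts (OG k)))
    rwa [TopologicalSpace.PositiveCompacts.coe_top] at this⟩
  refine ⟨OG k, inferInstance, inferInstance, inferInstance, inferInstance, inferInstance, nu,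
    fun g => row b g 0, fun g j => row b g j.succ, b (Fin.last (k + 1)), ?_⟩
  have hn1 : ∀ g p, ‖row b g p‖ = 1 := by
    intro g p
    have := inner_row hb g p p
    rw [if_pos rfl, real_inner_self_eq_norm_sq] at this
    nlinarith [norm_nonneg (row b g p)]
  refine ⟨hnu, cont_row b 0, fun j => cont_row b j.succ, fun g => ?_, fun g => hn1 g 0, hb.1 _,
    fun g => inner_row_last hb g 0, fun g j => ?_, fun g j => ?_, ?_⟩
  · rw [orthonormal_iff_ite]
    intro i j
    rw [inner_row hb]
    simp
  · rw [inner_row hb, if_neg (Fin.succ_ne_zero j).symm]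
  · rw [real_inner_comm]
    exact inner_row_last hb g j.succ
  · intro X hX x hx
    have hXc : Continuous X := hX.continuous
    have hX1 : ContDiff ℝ 1 X := hX.of_le (by exact_mod_cast le_top)
    have hXd : Continuous (fderiv ℝ X) := hX1.continuous_fderiv one_ne_zero
    have hXD : Differentiable ℝ X := hX1.differentiable one_ne_zero
    have hR : Continuous fun g : OG k => row b g 0 := cont_row b 0
    have hpos : Continuous fun g : OG k => x.1 • row b g 0 + x.2 • b (Fin.last (k + 1)) := by
      fun_prop
    have hint1 : ∀ j : Fin k, Integrable (fun g => ⟪row b g j.succ, fderiv ℝ X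
        (x.1 • row b g 0 + x.2 • b (Fin.last (k + 1))) (row b g j.succ)⟫) nu := by
      intro j
      have hT : Continuous fun g : OG k => row b g j.succ := cont_row b j.succ
      exact ((hT.inner ((hXd.comp hpos).clm_apply hT)).integrable_of_hasCompactSupport
        (HasCompactSupport.of_compactSpace _))
    have hint2 : Integrable (fun g => ⟪X (x.1 • row b g 0 + x.2 • b (Fin.last (k + 1))),
        row b g 0⟫) nu :=
      (((hXc.comp hpos).inner hR).integrable_of_hasCompactSupport
        (HasCompactSupport.of_compactSpace _))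
    have key : ∀ j : Fin k, ∫ g, ⟪row b g j.succ, fderiv ℝ X
        (x.1 • row b g 0 + x.2 • b (Fin.last (k + 1))) (row b g j.succ)⟫ ∂nu =
        1 / x.1 * ∫ g, ⟪X (x.1 • row b g 0 + x.2 • b (Fin.last (k + 1))), row b g 0⟫ ∂nu := by
      intro j
      have hT : Continuous fun g : OG k => row b g j.succ := cont_row b j.succ
      let P : OG k → ℝ → E n := fun g t =>
        x.1 • (cos t • row b g 0 + sin t • row b g j.succ) + x.2 • b (Fin.last (k + 1))
      let S : OG k → ℝ → E n := fun g t => -sin t • row b g 0 + cos t • row b g j.succ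
      let S' : OG k → ℝ → E n := fun g t => -cos t • row b g 0 + -sin t • row b g j.succ
      have hPd : ∀ g t, HasDerivAt (P g) (x.1 • S g t) t := by
        intro g t
        have h1 : HasDerivAt (fun t => cos t • row b g 0 + sin t • row b g j.succ)
            (-sin t • row b g 0 + cos t • row b g j.succ) t :=
          ((hasDerivAt_cos t).smul_const _).add ((hasDerivAt_sin t).smul_const _)
        exact (h1.const_smul x.1).add_const _
      have hSd : ∀ g t, HasDerivAt (S g) (S' g t) t := by
        intro g t
        exact ((hasDerivAt_sin t).neg.smul_const _).add ((hasDerivAt_cos t).smul_const _)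
      have hR2 : Continuous fun p : OG k × ℝ => row b p.1 0 := hR.comp continuous_fst
      have hT2 : Continuous fun p : OG k × ℝ => row b p.1 j.succ := hT.comp continuous_fst
      have hPc : Continuous fun p : OG k × ℝ => P p.1 p.2 := by
        simp only [P]
        fun_prop
      have hSc : Continuous fun p : OG k × ℝ => S p.1 p.2 := by
        simp only [S]
        fun_prop
      have hSc' : Continuous fun p : OG k × ℝ => S' p.1 p.2 := by
        simp only [S']
        fun_prop
      have hxS : Continuous fun p : OG k × ℝ => x.1 • S p.1 p.2 := hSc.const_smul x.1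
      have h := int_deriv_zero' nu (fun g t => ⟪X (P g t), S g t⟫)
        (fun g t => ⟪X (P g t), S' g t⟫ + ⟪fderiv ℝ X (P g t) (x.1 • S g t), S g t⟫)
        ((hXc.comp hPc).inner hSc)
        (((hXc.comp hPc).inner hSc').add
          (((hXd.comp hPc).clm_apply hxS).inner hSc))
        (fun g t => ((hXD (P g t)).hasFDerivAt.comp_hasDerivAt t (hPd g t)).inner ℝ (hSd g t))
        (fun t => ?_)
      · simp only [P, S, S', cos_zero, sin_zero, one_smul, zero_smul, neg_zero, zero_add,
          add_zero, map_smul, inner_smul_left, neg_smul, inner_neg_right,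
          RCLike.conj_to_real] at h
        have h8 : Integrable (fun g => ⟪fderiv ℝ X (x.1 • row b g 0 + x.2 •
            b (Fin.last (k + 1))) (row b g j.succ), row b g j.succ⟫) nu :=
          (hint1 j).congr (Filter.Eventually.of_forall fun g => real_inner_comm _ _)
        have h7 := integral_add hint2.neg (h8.const_mul x.1)
        simp only [Pi.neg_apply] at h7
        rw [h7, integral_neg, integral_const_mul] at h
        rw [one_div, eq_inv_mul_iff_mul_eq₀ hx]
        have h9 : (∫ g, ⟪row b g j.succ, fderiv ℝ X
            (x.1 • row b g 0 + x.2 • b (Fin.last (k + 1))) (row b g j.succ)⟫ ∂nu) =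
            ∫ g, ⟪fderiv ℝ X (x.1 • row b g 0 + x.2 • b (Fin.last (k + 1)))
            (row b g j.succ), row b g j.succ⟫ ∂nu :=
          integral_congr_ae (Filter.Eventually.of_forall fun g => real_inner_comm _ _)
        rw [h9]
        linarith
      · have h1 := integral_mul_left_eq_self (μ := nu)
          (fun g => ⟪X (x.1 • row b g 0 + x.2 • b (Fin.last (k + 1))), row b g j.succ⟫)
          (⟨rot j t, rot_mem j t⟩ : OG k)
        simp only [row_rot, if_true, if_neg (Fin.succ_ne_zero j)] at h1
        simp only [P, S, cos_zero, sin_zero, one_smul, zero_smul, neg_zero, zero_add, add_zero]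
        exact h1
    rw [integral_finsetSum _ fun j _ => hint1 j]
    simp only [key, Finset.sum_const, Finset.card_univ, Fintype.card_fin, nsmul_eq_mul]
    ring

end Pool.Agent.Helper19.LB
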