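import Pool.Agent.Helper19.LB.Defs

/-! Torus coordinates: definitions (from the frames of helper19). -/

set_option autoImplicit false

open MeasureTheory Set Real Module
open scoped ContDiff RealInnerProductSpace

namespace Pool.Agent.Helper19.LB

open FBM

section Torus

variable {n k : ℕ} (w : Fin k ⊕ Fin k ⊕ Unit → E n)

/-- The radial unit vector in the plane number `j`. -/
noncomputable def rh (θ : Fin k → ℝ) (j : Fin k) : E n :=
  cos (θ j) • w (.inl j) + sin (θ j) • w (.inr (.inl j))

/-- The angular unit vector in the plane number `j`. -/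
noncomputable def th (θ : Fin k → ℝ) (j : Fin k) : E n :=
  (-sin (θ j)) • w (.inl j) + cos (θ j) • w (.inr (.inl j))

/-- The radial unit vector. -/
noncomputable def Rh (θ : Fin k → ℝ) : E n := (√(k : ℝ))⁻¹ • ∑ j, rh w θ j

/-- The axis. -/
def ax : E n := w (.inr (.inr ()))

/-- The point with coordinates `(ρ, z)` and angles `θ`. -/
noncomputable def pos (x : Pt) (θ : Fin k → ℝ) : E n := x.1 • Rh w θ + x.2 • ax w

/-- The box of angles. -/
def box (k : ℕ) : Set (Fin k → ℝ) := Icc 0 (fun _ => 2 * π)

end Torus

end Pool.Agent.Helper19.LB
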